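import Pool.Agent.R995.BZ5

/-!
# The coefficient bound for the Bazilevič class `B_1(α)`, `α ≥ 1`
-/

set_option autoImplicit false

open Filter Topology Metric Complex Real
open scoped ComplexConjugate

namespace Pool.Agent.Results.MP_7a60ac_an.BazilevicCoefficients

open Pool.Agent.R995.BZ

/-- The Bazilevič class `B_1(α)`: the functions `f` which are analytic on the unit disc, with
`f(0) = 0`, `f'(0) = 1`, `f(z)/z ≠ 0`, and `Re [(f(z)/z)^(α-1) f'(z)] > 0`. The power is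
`exp ((α - 1) ℓ(z))` where `ℓ` is the analytic branch of `log (f(z)/z)` with `ℓ(0) = 0`. -/
def InB1 (α : ℝ) (f : ℂ → ℂ) : Prop :=
  DifferentiableOn ℂ f (ball 0 1) ∧ f 0 = 0 ∧ deriv f 0 = 1 ∧
  (∀ z ∈ ball (0 : ℂ) 1, z ≠ 0 → f z ≠ 0) ∧
  ∃ ℓ : ℂ → ℂ, DifferentiableOn ℂ ℓ (ball 0 1) ∧ ℓ 0 = 0 ∧
    (∀ z ∈ ball (0 : ℂ) 1, f z = z * Complex.exp (ℓ z)) ∧
    ∀ z ∈ ball (0 : ℂ) 1, 0 < (Complex.exp ((α - 1) * ℓ z) * deriv f z).re

/-- The branch `ℓ` in the definition of `InB1` always exists. -/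
lemma exists_log (f : ℂ → ℂ) (hf : DifferentiableOn ℂ f (ball 0 1)) (hf0 : f 0 = 0)
    (hf1 : deriv f 0 = 1) (hne : ∀ z ∈ ball (0 : ℂ) 1, z ≠ 0 → f z ≠ 0) :
    ∃ ℓ : ℂ → ℂ, DifferentiableOn ℂ ℓ (ball 0 1) ∧ ℓ 0 = 0 ∧
      ∀ z ∈ ball (0 : ℂ) 1, f z = z * Complex.exp (ℓ z) := by
  have h0mem : (0 : ℂ) ∈ ball (0 : ℂ) 1 := by simp
  have hnhds : ball (0 : ℂ) 1 ∈ 𝓝 (0 : ℂ) := isOpen_ball.mem_nhds h0mem
  set u : ℂ → ℂ := dslope f 0 with hu
  have hud : DifferentiableOn ℂ u (ball 0 1) := (Complex.differentiableOn_dslope hnhds).2 hf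
  have hu0 : u 0 = 1 := by rw [hu, dslope_same, hf1]
  have hfu : ∀ z, f z = z * u z := by
    intro z
    have := sub_smul_dslope f 0 z
    rw [hf0, sub_zero, sub_zero, smul_eq_mul] at this
    exact this.symm
  have hune : ∀ z ∈ ball (0 : ℂ) 1, u z ≠ 0 := by
    intro z hz
    by_cases h : z = 0
    · rw [h, hu0]
      exact one_ne_zero
    · intro h1
      apply hne z hz h
      rw [hfu, h1, mul_zero]
  have hq : DifferentiableOn ℂ (fun z => deriv u z / u z) (ball 0 1) :=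
    (hud.deriv isOpen_ball).div hud hune
  obtain ⟨g, hg0, hg⟩ := hq.isExactOn_ball.with_val_at 0 0
  have hgd : DifferentiableOn ℂ g (ball 0 1) := fun z hz =>
    (hg z hz).differentiableAt.differentiableWithinAt
  refine ⟨g, hgd, hg0, fun z hz => ?_⟩
  have hder : ∀ w ∈ ball (0 : ℂ) 1, HasDerivWithinAt (fun z => Complex.exp (-g z) * u z) 0 (ball 0 1) w := by
    intro w hw
    have h1 := (hg w hw).neg.cexp
    have h2 := (hud.differentiableAt (isOpen_ball.mem_nhds hw)).hasDerivAt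
    have h3 : HasDerivAt (fun z => Complex.exp (-g z) * u z)
        (Complex.exp (-g w) * -(deriv u w / u w) * u w + Complex.exp (-g w) * deriv u w) w := h1.mul h2
    have h4 : Complex.exp (-g w) * -(deriv u w / u w) * u w + Complex.exp (-g w) * deriv u w = 0 := by
      have := hune w hw
      field_simp
      ring
    rw [h4] at h3
    exact h3.hasDerivWithinAt
  have hconst := (convex_ball (0 : ℂ) 1).is_const_of_fderivWithin_eq_zero (𝕜 := ℂ)
    (fun w hw => (hder w hw).differentiableWithinAt)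
    (fun w hw => by
      have h1 := (hder w hw).hasFDerivWithinAt
      have h2 := h1.fderivWithin (isOpen_ball.uniqueDiffWithinAt hw)
      rw [h2]
      ext
      simp) hz h0mem
  simp only [hg0, hu0, neg_zero, Complex.exp_zero, mul_one] at hconst
  have h5 : u z = Complex.exp (g z) := by
    have h6 : Complex.exp (g z) * (Complex.exp (-g z) * u z) = u z := by
      rw [← mul_assoc, ← Complex.exp_add]
      simp
    rw [← h6, hconst, mul_one]
  rw [hfu, h5]

/-- the sequence `α / (α + k)` -/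
noncomputable def tq (α : ℝ) (k : ℕ) : ℝ := α / (α + k)

lemma tq_pos {α : ℝ} (hα : 0 < α) (k : ℕ) : 0 < tq α k := by
  unfold tq
  positivity

lemma tq_zero {α : ℝ} (hα : 0 < α) : tq α 0 = 1 := by
  unfold tq
  have := hα.ne'
  simp [this]

lemma tq_log {α : ℝ} (hα : 0 < α) (j k : ℕ) (hjk : j ≤ k) :
    tq α (j + 1) * tq α k ≤ tq α (k + 1) * tq α j := by
  unfold tq
  push_cast
  have hj : (0 : ℝ) ≤ j := Nat.cast_nonneg j
  have hk : (0 : ℝ) ≤ k := Nat.cast_nonneg k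
  have hjk' : (j : ℝ) ≤ k := by exact_mod_cast hjk
  rw [div_mul_div_comm, div_mul_div_comm]
  refine div_le_div_of_nonneg_left (by positivity) (by positivity) ?_
  nlinarith

theorem result (α : ℝ) (hα : 1 ≤ α) (f : ℂ → ℂ) (hf : InB1 α f) (n : ℕ) (hn : 2 ≤ n) :
    ‖iteratedDeriv n f 0 / (n.factorial : ℂ)‖ ≤ 2 / ((n : ℝ) - 1 + α) := by
  obtain ⟨hfd, hf0, hf1, -, ℓ, hℓ, hℓ0, hfℓ, hpos⟩ := hf
  have hα0 : 0 < α := by linarith
  have hαc : (α : ℂ) ≠ 0 := by exact_mod_cast hα0.ne'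
  have h0mem : (0 : ℂ) ∈ ball (0 : ℂ) 1 := by simp
  have hnhds : ball (0 : ℂ) 1 ∈ 𝓝 (0 : ℂ) := isOpen_ball.mem_nhds h0mem
  set u : ℂ → ℂ := fun z => Complex.exp (ℓ z) with hu
  set h : ℂ → ℂ := fun z => Complex.exp (α * ℓ z) with hh
  set p : ℂ → ℂ := fun z => Complex.exp ((α - 1) * ℓ z) * deriv f z with hp
  have hud : DifferentiableOn ℂ u (ball 0 1) := hℓ.cexp
  have hhd : DifferentiableOn ℂ h (ball 0 1) := (hℓ.const_mul (α : ℂ)).cexp
  have hpd : DifferentiableOn ℂ p (ball 0 1) :=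
    ((hℓ.const_mul ((α : ℂ) - 1)).cexp).mul (hfd.deriv isOpen_ball)
  have hp0 : p 0 = 1 := by
    rw [hp]
    simp [hℓ0, hf1]
  have hua : AnalyticAt ℂ u 0 := hud.analyticAt hnhds
  have hha : AnalyticAt ℂ h 0 := hhd.analyticAt hnhds
  have hℓa : AnalyticAt ℂ ℓ 0 := hℓ.analyticAt hnhds
  have hℓat : ∀ z ∈ ball (0 : ℂ) 1, HasDerivAt ℓ (deriv ℓ z) z := fun z hz =>
    (hℓ.differentiableAt (isOpen_ball.mem_nhds hz)).hasDerivAt
  have hu' : ∀ z ∈ ball (0 : ℂ) 1, HasDerivAt u (Complex.exp (ℓ z) * deriv ℓ z) z := fun z hz =>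
    (hℓat z hz).cexp
  have hh' : ∀ z ∈ ball (0 : ℂ) 1, HasDerivAt h (Complex.exp (α * ℓ z) * (α * deriv ℓ z)) z :=
    fun z hz => ((hℓat z hz).const_mul (α : ℂ)).cexp
  have hf' : ∀ z ∈ ball (0 : ℂ) 1, deriv f z = Complex.exp (ℓ z) + z * (Complex.exp (ℓ z) * deriv ℓ z) := by
    intro z hz
    have h1 : HasDerivAt (fun z => z * u z) (1 * u z + z * (Complex.exp (ℓ z) * deriv ℓ z)) z :=
      (hasDerivAt_id z).mul (hu' z hz)
    have h2 : f =ᶠ[𝓝 z] fun z => z * u z := by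
      filter_upwards [isOpen_ball.mem_nhds hz] with w hw
      exact hfℓ w hw
    rw [h2.deriv_eq, h1.deriv, one_mul]
  have hph : ∀ z ∈ ball (0 : ℂ) 1, p z = h z + (fun _ => (α : ℂ)⁻¹) z * ((fun z => z) z * deriv h z) := by
    intro z hz
    simp only [hp]
    rw [hf' z hz, (hh' z hz).deriv]
    have h1 : Complex.exp ((α - 1) * ℓ z) * Complex.exp (ℓ z) = h z := by
      rw [hh, ← Complex.exp_add]
      congr 1
      ring
    calc Complex.exp ((α - 1) * ℓ z) * (Complex.exp (ℓ z) + z * (Complex.exp (ℓ z) * deriv ℓ z))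
        = Complex.exp ((α - 1) * ℓ z) * Complex.exp (ℓ z) * (1 + z * deriv ℓ z) := by ring
      _ = h z * (1 + z * deriv ℓ z) := by rw [h1]
      _ = _ := by
          rw [hh]
          simp only
          field_simp
  set H := tay h with hH
  set U := tay u with hU
  have hhda : AnalyticAt ℂ (deriv h) 0 := hha.deriv
  have huda : AnalyticAt ℂ (deriv u) 0 := hua.deriv
  have htp : tay p = H + PowerSeries.C (α : ℂ)⁻¹ * (PowerSeries.X * PowerSeries.derivative ℂ H) := by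
    have h1 : p =ᶠ[𝓝 0] fun z => h z + (fun _ => (α : ℂ)⁻¹) z * ((fun z => z) z * deriv h z) := by
      filter_upwards [hnhds] with z hz
      exact hph z hz
    have a0 : AnalyticAt ℂ (fun z : ℂ => z) 0 := analyticAt_id
    have a1 : AnalyticAt ℂ (fun z => (fun z => z) z * deriv h z) 0 := a0.mul hhda
    have a3 : AnalyticAt ℂ (fun _ : ℂ => (α : ℂ)⁻¹) 0 := analyticAt_const
    have a2 : AnalyticAt ℂ (fun z => (fun _ => (α : ℂ)⁻¹) z * ((fun z => z) z * deriv h z)) 0 :=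
      a3.mul a1
    rw [tay_congr h1, tay_add hha a2, tay_mul a3 a1, tay_mul a0 hhda, tay_const,
      tay_id, tay_deriv]
  have hHk : ∀ k, PowerSeries.coeff k H = (tq α k : ℂ) * PowerSeries.coeff k (tay p) := by
    intro k
    have h1 := congrArg (PowerSeries.coeff k) htp
    rw [map_add, PowerSeries.coeff_C_mul] at h1
    have h2 : PowerSeries.coeff k (PowerSeries.X * PowerSeries.derivative ℂ H) =
        k * PowerSeries.coeff k H := by
      rcases k with _ | k
      · simp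
      · rw [PowerSeries.coeff_succ_X_mul, PowerSeries.coeff_derivative]
        push_cast
        ring
    rw [h2] at h1
    have h3 : ((α : ℂ) + k) ≠ 0 := by
      have : (α + k : ℝ) ≠ 0 := by positivity
      exact_mod_cast this
    rw [h1, tq]
    push_cast
    field_simp
  have hUc : PowerSeries.constantCoeff U = 1 := by
    rw [← PowerSeries.coeff_zero_eq_constantCoeff_apply, hU, coeff_tay]
    simp [hu, hℓ0]
  have hode : H * PowerSeries.derivative ℂ U =
      PowerSeries.C ((α⁻¹ : ℝ) : ℂ) * (PowerSeries.derivative ℂ H * U) := by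
    have a1 : AnalyticAt ℂ (fun z => deriv h z * u z) 0 := hhda.mul hua
    have a3 : AnalyticAt ℂ (fun _ : ℂ => ((α⁻¹ : ℝ) : ℂ)) 0 := analyticAt_const
    rw [hH, hU, ← tay_deriv, ← tay_deriv, ← tay_mul hha huda, ← tay_mul hhda hua,
      ← tay_const, ← tay_mul a3 a1]
    apply tay_congr
    filter_upwards [hnhds] with z hz
    rw [(hu' z hz).deriv, (hh' z hz).deriv]
    simp only [hh, hu]
    push_cast
    field_simp
  have htf : tay f = PowerSeries.X * U := by
    have h1 : f =ᶠ[𝓝 0] fun z => (fun z => z) z * u z := by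
      filter_upwards [hnhds] with z hz
      exact hfℓ z hz
    have a0 : AnalyticAt ℂ (fun z : ℂ => z) 0 := analyticAt_id
    rw [tay_congr h1, tay_mul a0 hua, tay_id]
  have hbound := fun m => coeff_pow_bound hpd (fun z hz => (hpos z hz).le) hp0 (tq α) (tq_pos hα0)
    (tq_zero hα0) (tq_log hα0) H U hHk hUc α⁻¹ (inv_pos.2 hα0) (inv_le_one_of_one_le₀ hα) hode m
  obtain ⟨m, rfl⟩ : ∃ m, n = m + 2 := ⟨n - 2, by omega⟩
  have h1 : iteratedDeriv (m + 2) f 0 / ((m + 2).factorial : ℂ) = PowerSeries.coeff (m + 1) U := by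
    rw [← coeff_tay, htf, PowerSeries.coeff_succ_X_mul]
  rw [h1]
  refine (hbound m).trans (le_of_eq ?_)
  unfold tq
  push_cast
  have h2 : (α + ((m : ℝ) + 1)) ≠ 0 := by positivity
  have h3 : ((m : ℝ) + 2 - 1 + α) ≠ 0 := by
    have : (m : ℝ) + 2 - 1 + α = α + (m + 1) := by ring
    rw [this]
    exact h2
  field_simp
  ring

end Pool.Agent.Results.MP_7a60ac_an.BazilevicCoefficients
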